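import Pool.Agent.H8.PL.Targets

/-!
# The formulas of the spectra
-/

set_option autoImplicit false

namespace Pool.Agent.H34.PL

open Pool.Agent.H8.PL Pool.Agent.H69.Sp Pool.Agent.H69.Mt Pool.Agent.H16.TO

theorem card_id (K : ℕ) (hK : 4 ≤ K) : 2 * (K - 1) ^ 2 + 2 + 2 * K + 2 * K = 2 * K * K + 4 := by
  obtain ⟨k, rfl⟩ := Nat.exists_eq_add_of_le hK
  have : 4 + k - 1 = 3 + k := by omega
  rw [this]
  ring

theorem card_inj {K W : ℕ} (hK : 4 ≤ K) (hW : 4 ≤ W)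
    (h : 2 * (K - 1) ^ 2 + 2 + 2 * W + 2 * W = 2 * W * W + 4) : K = W := by
  have h1 := card_id W hW
  have h2 : (K - 1) ^ 2 = (W - 1) ^ 2 := by omega
  have h3 : K - 1 = W - 1 := Nat.pow_left_injective (n := 2) (by norm_num) h2
  omega

theorem p1 (hSQ : Z_SQ) (hD2 : Z_D2) (hMO : Z_MO) (hMP : Z_MP) : Z_P1 := by
  intro S hS
  obtain ⟨r, Q, U, Hh, Vv, hr, hQ, hg⟩ := hSQ S hS
  obtain ⟨φ, hφ⟩ := hD2 Q U Hh Vv
  refine ⟨φ, r, hr, ?_⟩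
  intro n hn
  have hK : 4 ≤ n ^ r := hn.trans (Nat.le_self_pow hr.ne' n)
  constructor
  · intro hnS
    have ht : ∃ t, GridF U Hh Vv (n ^ r) (n ^ r) t :=
      (hg (n ^ r) (n ^ r) (by omega) (by omega)).2 ⟨n, hnS, rfl, rfl⟩
    obtain ⟨G, lb, ti, hP, hR⟩ := hMP Q U Hh Vv (n ^ r) (n ^ r) (2 * (n ^ r - 1) ^ 2 + 2) hK hK
      (card_id _ hK) ht
    exact (hφ _).2 ⟨by omega, G, lb, ti, hP, hR⟩
  · intro hN
    obtain ⟨_, G, lb, ti, hP, hR⟩ := (hφ _).1 hN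
    obtain ⟨W, H, hW, hH, hcard, ht⟩ := hMO Q U Hh Vv _ G lb ti hP hR
    obtain ⟨m, hm, hWm, hHm⟩ := (hg W H (by omega) (by omega)).1 ht
    have hWH : H = W := by rw [hWm, hHm]
    rw [hWH, Nat.card_fin] at hcard
    have h1 : n ^ r = W := card_inj hK hW hcard
    have h2 : n = m := Nat.pow_left_injective hr.ne' (h1.trans hWm)
    rw [h2]
    exact hm

end Pool.Agent.H34.PL
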